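import Pool.Agent.TH222.RG.R1.E0

set_option autoImplicit false

/-! All types of the table pass the checker. -/

namespace Pool.Agent.TH222.RG.R1

theorem cons_ok {t : BT} {l : List BT} {es : List Ent} (h : chkBT 1 6 tbl t es = true)
    (hl : ∀ t ∈ l, ∃ es, chkBT 1 6 tbl t es = true) : ∀ t' ∈ t :: l, ∃ es, chkBT 1 6 tbl t' es = true := by
  intro t' ht'
  rcases List.mem_cons.1 ht' with h' | h'
  · subst h'; exact ⟨es, h⟩
  · exact hl t' h'

theorem nil_ok : ∀ t ∈ ([] : List BT), ∃ es, chkBT 1 6 tbl t es = true :=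
  fun _ ht => absurd ht List.not_mem_nil

theorem okB0 : ∀ t ∈ B0, ∃ es, chkBT 1 6 tbl t es = true :=
  (cons_ok ok0 (cons_ok ok1 (cons_ok ok2 (cons_ok ok3 (cons_ok ok4 (cons_ok ok5 (cons_ok ok6
  nil_ok)))))))

theorem okBB : ∀ B ∈ BB, ∀ t ∈ B, ∃ es, chkBT 1 6 tbl t es = true := by
  intro B hB
  simp only [BB, List.mem_cons, List.not_mem_nil, or_false] at hB
  subst hB; exact okB0

theorem getD_cases {α : Type} (l : List α) (i : ℕ) (d : α) : l.getD i d ∈ l ∨ l.getD i d = d := by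
  by_cases h : i < l.length
  · left
    rw [List.getD_eq_getElem _ _ h]
    exact List.getElem_mem h
  · right
    exact List.getD_eq_default _ _ (not_lt.1 h)

theorem tbl_cases (i : ℕ) : (∃ B ∈ BB, tbl i ∈ B) ∨ tbl i = T0 := by
  unfold tbl
  rcases getD_cases BB (Nat.div i 16) [] with h | h
  · rcases getD_cases (BB.getD (Nat.div i 16) []) (Nat.mod i 16) T0 with h' | h'
    · exact Or.inl ⟨_, h, h'⟩
    · exact Or.inr h'
  · right
    rw [h]
    simp

theorem ok_all (i : ℕ) : ∃ es, chkBT 1 6 tbl (tbl i) es = true := by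
  rcases tbl_cases i with ⟨B, hB, h⟩ | h
  · exact okBB B hB _ h
  · rw [h]; exact ⟨E0, ok0⟩

theorem pos_all_aux : (BB.all fun B => B.all fun t => Nat.blt 0 t.n) = true := by decide +kernel

theorem pos_all (i : ℕ) : 0 < (tbl i).n := by
  rcases tbl_cases i with ⟨B, hB, h⟩ | h
  · have := List.all_eq_true.1 (List.all_eq_true.1 pos_all_aux B hB) _ h
    exact Nat.le_of_ble_eq_true this
  · rw [h]; exact Nat.one_pos

end Pool.Agent.TH222.RG.R1
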