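import Pool.Agent.TH222.RG.R1.Tys

set_option autoImplicit false
set_option maxRecDepth 100000

/-! Entries of the types 0 to 6. -/

namespace Pool.Agent.TH222.RG.R1

def E0 : List Ent := [⟨0, 1, 0x8, 0x10⟩]
theorem ok0 : chkBT 1 6 tbl T0 E0 = true := by decide +kernel
def E1 : List Ent := [⟨0, 2, 0x80, 0x10⟩,
  ⟨1, 0, 0x0, 0x10⟩]
theorem ok1 : chkBT 1 6 tbl T1 E1 = true := by decide +kernel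
def E2 : List Ent := [⟨0, 3, 0x810, 0x10⟩,
  ⟨1, 1, 0x1, 0x10⟩,
  ⟨2, 1, 0x0, 0x10⟩]
theorem ok2 : chkBT 1 6 tbl T2 E2 = true := by decide +kernel
def E3 : List Ent := [⟨0, 4, 0x8210, 0x10⟩,
  ⟨1, 2, 0x21, 0x10⟩,
  ⟨2, 2, 0x20, 0x10⟩,
  ⟨4, 2, 0x10, 0x10⟩]
theorem ok3 : chkBT 1 6 tbl T3 E3 = true := by decide +kernel
def E4 : List Ent := [⟨0, 5, 0x83210, 0x10⟩,
  ⟨1, 3, 0x321, 0x10⟩,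
  ⟨2, 3, 0x320, 0x10⟩,
  ⟨4, 3, 0x310, 0x10⟩,
  ⟨8, 3, 0x210, 0x10⟩]
theorem ok4 : chkBT 1 6 tbl T4 E4 = true := by decide +kernel
def E5 : List Ent := [⟨0, 6, 0x843210, 0x10⟩,
  ⟨1, 4, 0x4321, 0x10⟩,
  ⟨2, 4, 0x4320, 0x10⟩,
  ⟨4, 4, 0x4310, 0x10⟩,
  ⟨8, 4, 0x4210, 0x10⟩,
  ⟨16, 4, 0x3210, 0x10⟩]
theorem ok5 : chkBT 1 6 tbl T5 E5 = true := by decide +kernel
def E6 : List Ent := [⟨1, 5, 0x54321, 0x10⟩,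
  ⟨2, 5, 0x54320, 0x10⟩,
  ⟨4, 5, 0x54310, 0x10⟩,
  ⟨8, 5, 0x54210, 0x10⟩,
  ⟨16, 5, 0x53210, 0x10⟩,
  ⟨32, 5, 0x43210, 0x10⟩]
theorem ok6 : chkBT 1 6 tbl T6 E6 = true := by decide +kernel

end Pool.Agent.TH222.RG.R1
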