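import Pool.Agent.TH222.RG.Chk

set_option autoImplicit false

/-! The 7 boundary types. -/

namespace Pool.Agent.TH222.RG.R1

def T0 : BT := ⟨0, false, 1, 0x0, []⟩
def T1 : BT := ⟨1, true, 1, 0x10, []⟩
def T2 : BT := ⟨2, false, 1, 0x1010, []⟩
def T3 : BT := ⟨3, true, 1, 0x101010, []⟩
def T4 : BT := ⟨4, false, 1, 0x10101010, []⟩
def T5 : BT := ⟨5, true, 1, 0x1010101010, []⟩
def T6 : BT := ⟨6, false, 1, 0x101010101010, []⟩
def B0 : List BT := [T0, T1, T2, T3, T4, T5, T6]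
def BB : List (List BT) := [B0]

/-- the type with number i -/
def tbl (i : ℕ) : BT := (BB.getD (Nat.div i 16) []).getD (Nat.mod i 16) T0

end Pool.Agent.TH222.RG.R1
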